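import Pool.Agent.L5helper55.SL.Main
import Pool.Agent.L5helper55.SL.Stmt

/-!
# A solenoid which is low₂-presented and not homeomorphic to a computably presented Polish space

For a set `D` of natural numbers let `q n` be the Fermat number with index `2 n` or `2 n + 1`,
according to `D n`, and let `X` be the solenoid of the sequence `q`, the inverse limit of the circles
under the multiplications by `q n`. It is a compact connected abelian group of covering dimension one
and has a `D`-computable presentation. The projection `f` of `X` to the first circle is divisible by
the Fermat number with index `2 n + i`, in the group of the continuous maps from `X` to the circle,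
if and only if `D n = i`. If `X` is homeomorphic to a computably presented space, then it is decidable
in the first jump whether there are finite data approximating a continuous map `g` with `k g = f`,
up to a search; so `D` is computable in the first jump. It remains to construct a set which is
low₂, but not computable in the first jump.
-/

set_option autoImplicit false

namespace Pool.Agent.Results.MP_f0c992_lc.LowSolenoid

open Pool.Agent.L5helper55.SL.Stmt

universe u

/-- There are a set `D` of low₂ (in particular low₄) degree and a compact connected Polish
space `X` of covering dimension at most one, in fact a compact connected abelian group, which has a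
`D`-computable presentation and is not homeomorphic to any computably presented Polish space. -/
theorem result : ∃ D : ℕ → Bool, Low 2 D ∧ Low 4 D ∧
    ∃ (X : Type) (_ : AddCommGroup X) (_ : TopologicalSpace X) (_ : IsTopologicalAddGroup X),
      PolishSpace X ∧ CompactSpace X ∧ ConnectedSpace X ∧ DimLE X 1 ∧ Presented D X ∧
      ∀ (Y : Type u) [TopologicalSpace Y], Presented empty Y → IsEmpty (X ≃ₜ Y) := by
  obtain ⟨D, hD1, hD2⟩ := Pool.Agent.L5helper55.SL.exists_low2
  have hj : ∀ A, jump A = Pool.Agent.Helper227.jump A := fun A => rfl
  have hj' : jump = Pool.Agent.Helper227.jump := funext hj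
  have h0 : Pool.Agent.Helper227.TLe empty D := by
    rw [Pool.Agent.Helper227.tLe_iff_SI]
    exact Pool.Agent.Helper227.SI.of_prim (Primrec.eq.comp (Primrec.const false) Primrec.snd)
  have h2 : Low 2 D := ⟨hD2, h0.jump.jump⟩
  refine ⟨D, h2, ⟨Pool.Agent.Helper227.TLe.jump (Pool.Agent.Helper227.TLe.jump h2.1),
    Pool.Agent.Helper227.TLe.jump (Pool.Agent.Helper227.TLe.jump h2.2)⟩, ?_⟩
  refine ⟨Pool.Agent.L5helper55.SL.Sol (Pool.Agent.L5helper55.SL.qq D), inferInstance,
    inferInstance, inferInstance, ?_, inferInstance, ?_, ?_, ?_, ?_⟩
  · exact Pool.Agent.L5helper55.SL.isClosed_Sol.polishSpace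
  · exact Pool.Agent.L5helper55.SL.connectedSpace (Pool.Agent.L5helper55.SL.qq_pos D)
  · exact Pool.Agent.L5helper55.SL.dimLE (Pool.Agent.L5helper55.SL.qq_pos D)
  · exact Pool.Agent.L5helper55.SL.presented D
  · intro Y _ hY
    refine ⟨fun φ => hD1 ?_⟩
    exact Pool.Agent.L5helper55.SL.not_presented D Y hY φ

end Pool.Agent.Results.MP_f0c992_lc.LowSolenoid
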